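import Pool.Agent.H.MP_b7f2f1_an.Sum

namespace Pool.Agent.Results.MP_b7f2f1_an.AlmostNotSemi

variable {𝕜 : Type} [RCLike 𝕜] {X : Type} [NormedAddCommGroup X] [NormedSpace 𝕜 X]

/-- Markushevich basis with biorthogonal functionals `f`. -/
def IsMBasis (x : ℕ → X) (f : ℕ → X →L[𝕜] 𝕜) : Prop :=
  (∀ k n, f k (x n) = if k = n then 1 else 0) ∧
    Dense (Submodule.span 𝕜 (Set.range x) : Set X) ∧ ∀ v, (∀ n, f n v = 0) → v = 0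

/-- `A` is a greedy set of `v`. -/
def IsGreedySet (f : ℕ → X →L[𝕜] 𝕜) (v : X) (A : Finset ℕ) : Prop :=
  ∀ n ∈ A, ∀ k ∉ A, ‖f k v‖ ≤ ‖f n v‖

/-- best `m`-term error -/
noncomputable def sigma (𝕜 : Type) [RCLike 𝕜] [NormedSpace 𝕜 X] (x : ℕ → X) (m : ℕ) (v : X) : ℝ :=
  sInf {r | ∃ B : Finset ℕ, B.card ≤ m ∧ ∃ a : ℕ → 𝕜, r = ‖v - ∑ n ∈ B, a n • x n‖}

/-- best `m`-term projection error -/
noncomputable def sigmaProj (x : ℕ → X) (f : ℕ → X →L[𝕜] 𝕜) (m : ℕ) (v : X) : ℝ :=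
  sInf {r | ∃ B : Finset ℕ, B.card ≤ m ∧ r = ‖v - ∑ n ∈ B, f n v • x n‖}

def AlmostGreedy (C : ℝ) (x : ℕ → X) (f : ℕ → X →L[𝕜] 𝕜) : Prop :=
  ∀ v A, IsGreedySet f v A → ‖v - ∑ n ∈ A, f n v • x n‖ ≤ C * sigmaProj x f A.card v

def SemiGreedy (C : ℝ) (x : ℕ → X) (f : ℕ → X →L[𝕜] 𝕜) : Prop :=
  ∀ v A, IsGreedySet f v A →
    sInf {r | ∃ a : ℕ → 𝕜, r = ‖v - ∑ n ∈ A, a n • x n‖} ≤ C * sigma 𝕜 x A.card v

open Pool.Agent.H.MP_b7f2f1_an in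
theorem result (𝕜 : Type) [RCLike 𝕜] :
    ∃ (X : Type) (_ : NormedAddCommGroup X) (_ : NormedSpace 𝕜 X) (_ : CompleteSpace X)
      (x : ℕ → X) (f : ℕ → X →L[𝕜] 𝕜),
      IsMBasis x f ∧ (∀ n, ‖x n‖ ≤ 1 ∧ ‖f n‖ ≤ 1) ∧ (∀ v, HasSum (fun n => f n v • x n) v) ∧
        AlmostGreedy 1 x f ∧ ¬ SemiGreedy 1 x f := by
  refine ⟨X 𝕜, inferInstance, inferInstance, inferInstance, x, f, ⟨f_x, dense_x, total⟩,
    fun n => ⟨norm_x n, norm_f n⟩, hasSum_x, fun v A hA => ?_, fun h => ?_⟩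
  · rw [one_mul]
    refine le_csInf ⟨_, ∅, by simp, rfl⟩ ?_
    rintro _ ⟨B, hB, rfl⟩
    exact almost v A B hA hB
  · have h1 := h w {2} w_greedy
    rw [one_mul] at h1
    have h2 : (5 / 4 : ℝ) ≤ sInf {r | ∃ a : ℕ → 𝕜,
        r = ‖(w : X 𝕜) - ∑ n ∈ ({2} : Finset ℕ), a n • x n‖} := by
      refine le_csInf ⟨_, 0, rfl⟩ ?_
      rintro _ ⟨a, rfl⟩
      exact w_low a
    have h3 : sigma 𝕜 (x (𝕜 := 𝕜)) ({2} : Finset ℕ).card w ≤ 19 / 16 := by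
      refine le_trans (csInf_le ⟨0, ?_⟩ ?_) (w_up (𝕜 := 𝕜))
      · rintro _ ⟨B, -, a, rfl⟩
        exact norm_nonneg _
      · exact ⟨{1}, by simp, fun _ => 7 / 8, rfl⟩
    linarith

end Pool.Agent.Results.MP_b7f2f1_an.AlmostNotSemi
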